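import Pool.Agent.Helper185.SilverFinal

/-! Continuous images and the selection principle `S_fin(B_Γ, B)`. -/

namespace Pool.Agent.Y996.PW

open Set Pool.Agent.Helper185.Sel

/-- `S_fin(B_Γ, B)` passes to continuous images. -/
theorem sfin_image {A B : Type*} [TopologicalSpace A] [TopologicalSpace B] (π : A → B)
    (hc : Continuous π) (hs : Function.Surjective π)
    (h : Sfin (GammaOf (BorelFam A)) (CovOf (BorelFam A))) :
    Sfin (GammaOf (BorelFam B)) (CovOf (BorelFam B)) := by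
  have inj : Function.Injective (fun u : Set B => π ⁻¹' u) := hs.preimage_injective
  have hmeas : ∀ u : Set B, @MeasurableSet B (borel B) u →
      @MeasurableSet A (borel A) (π ⁻¹' u) := by
    intro u hu
    have hm : @Measurable A B (borel A) (borel B) π := by
      refine @measurable_generateFrom A B (borel A) _ _ fun t ht => ?_
      exact MeasurableSpace.measurableSet_generateFrom (ht.preimage hc)
    exact hm hu
  intro U hU
  obtain ⟨F, hF, hFc⟩ := h (fun n => (fun u => π ⁻¹' u) '' U n) (fun n => by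
    obtain ⟨⟨h1, h2⟩, ⟨h3, h4⟩, h5, h6⟩ := hU n
    refine ⟨⟨h1.image _, ?_⟩, ⟨?_, ?_⟩, h5.image inj.injOn, ?_⟩
    · rintro _ ⟨u, hu, rfl⟩
      exact hmeas u (h2 u hu)
    · rw [eq_univ_iff_forall]
      intro a
      have : π a ∈ ⋃₀ U n := by rw [h3]; trivial
      obtain ⟨u, hu, ha⟩ := this
      exact ⟨_, ⟨u, hu, rfl⟩, ha⟩
    · rintro ⟨u, hu, he⟩
      apply h4
      have : u = univ := inj (by simpa using he)
      exact this ▸ hu
    · intro a
      apply ((h6 (π a)).image (fun u => π ⁻¹' u)).subset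
      rintro _ ⟨⟨u, hu, rfl⟩, ha⟩
      exact ⟨u, ⟨hu, ha⟩, rfl⟩)
  refine ⟨fun n => {u | u ∈ U n ∧ π ⁻¹' u ∈ F n}, fun n => ⟨?_, fun u hu => hu.1⟩, ⟨?_, ?_⟩, ?_, ?_⟩
  · exact ((hF n).1.preimage inj.injOn).subset fun u hu => hu.2
  · exact (countable_iUnion fun n => (hU n).1.1).mono
      (iUnion_mono fun n => fun u hu => hu.1)
  · intro u hu
    obtain ⟨n, hn⟩ := mem_iUnion.1 hu
    exact (hU n).1.2 u hn.1
  · rw [eq_univ_iff_forall]
    intro b
    obtain ⟨a, rfl⟩ := hs b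
    have : a ∈ ⋃₀ (⋃ n, F n) := by rw [hFc.2.1]; trivial
    obtain ⟨v, hv, ha⟩ := this
    obtain ⟨n, hn⟩ := mem_iUnion.1 hv
    obtain ⟨u, hu, rfl⟩ := (hF n).2 hn
    exact ⟨u, mem_iUnion.2 ⟨n, hu, hn⟩, ha⟩
  · intro hu
    obtain ⟨n, hn⟩ := mem_iUnion.1 hu
    exact (hU n).2.1.2 hn.1

/-- If the square of `X` fails `S_fin(B_Γ, B)`, so does every power with exponent at least two. -/
theorem powers {T : Type*} [TopologicalSpace T]
    (h : ¬ Sfin (GammaOf (BorelFam (Fin 2 → T))) (CovOf (BorelFam (Fin 2 → T)))) (k : ℕ)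
    (hk : 2 ≤ k) :
    ¬ Sfin (GammaOf (BorelFam (Fin k → T))) (CovOf (BorelFam (Fin k → T))) := by
  intro hS
  refine h (sfin_image (fun (p : Fin k → T) (i : Fin 2) => p (Fin.castLE hk i)) ?_ ?_ hS)
  · exact continuous_pi fun i => continuous_apply _
  · intro q
    refine ⟨fun j => if hj : (j : ℕ) < 2 then q ⟨j, hj⟩ else q 0, ?_⟩
    funext i
    have h2 : ((Fin.castLE hk i : Fin k) : ℕ) < 2 := i.2
    show (if hj : ((Fin.castLE hk i : Fin k) : ℕ) < 2 then q ⟨_, hj⟩ else q 0) = q i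
    rw [dif_pos h2]
    rfl

end Pool.Agent.Y996.PW
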